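import Pool.Graph.R_pool_sql_team_22c7b01f.H20.St4

set_option autoImplicit false

open Set MeasureTheory Matrix
open scoped ENNReal

namespace Pool.Agent.KS6_36.St

open Pool.Agent.H20.St

section
variable {d : ℕ}

lemma main {k : ℝ} (hd2 : 2 ≤ d) (hk : 0 < k) (dk : (d : ℝ) = k ^ 2) {u : E d} (hu : ip u u = 1) {Z : Set (E d)}
    (hZ : ∀ p ∈ L d, ∀ q ∈ L d, ip u p = ip u q → (1 / 2 : ℝ) • (p - q) + ip u p • u ∈ Z) :
    ENNReal.ofReal (k / 9000) * volume (L d) ≤ volume Z := by
  have cf := (ip u).continuous_of_finiteDimensional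
  set G := (fun z : E d × E d => (1 / 2 : ℝ) • (z.1 + z.2)) ''
    (L d ×ˢ L d ∩ {z | 1 / 30 ≤ ip u z.1 - ip u z.2}) with hG
  have cG : IsCompact G := (((L_cpt d).prod (L_cpt d)).inter_right
    (isClosed_le continuous_const (by fun_prop))).image (by fun_prop)
  have hs := slice volume (ip u) hu (Z := Z) cG.measurableSet (c := 1 / 60) (R := 5 / k) (by
    rintro _ ⟨⟨p, q⟩, ⟨⟨hp, hq⟩, h⟩, rfl⟩ _ ⟨⟨p', q'⟩, ⟨⟨hp', hq'⟩, h'⟩, rfl⟩
    refine ⟨((1 / 2 : ℝ) • p + (-1 / 2 : ℝ) • q', (1 / 2 : ℝ) • q + (-1 / 2 : ℝ) • p'),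
      ⟨⟨comb hp hq' (by norm_num [abs_of_pos, abs_div]),
        comb hq hp' (by norm_num [abs_of_pos, abs_div])⟩, ?_⟩, by module⟩
    simp only [mem_ofPred_eq, map_add, map_smul, smul_eq_mul] at h h' ⊢
    linarith) (by
    rintro _ ⟨⟨p, q⟩, ⟨⟨hp, hq⟩, h⟩, rfl⟩ h0 s hs
    simp only [mem_ofPred_eq, map_add, map_smul, smul_eq_mul] at h h0
    set θ := 2 * s / (ip u p - ip u q) with hθ
    have t1 : |θ| ≤ 1 := by
      rw [hθ, abs_div, abs_mul, abs_two, abs_of_pos (show 0 < ip u p - ip u q by linarith),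
        div_le_one (by linarith)]
      linarith
    have t2 : θ * (ip u p - ip u q) = 2 * s := div_mul_cancel₀ _ (by linarith)
    rw [abs_le] at t1
    have a1 : |(1 + θ) / 2| = (1 + θ) / 2 := abs_of_nonneg (by linarith [t1.1])
    have a2 : |(1 - θ) / 2| = (1 - θ) / 2 := abs_of_nonneg (by linarith [t1.2])
    have e : ip u (((1 + θ) / 2) • p + ((1 - θ) / 2) • q) = s := by
      simp only [map_add, map_smul, smul_eq_mul]; linarith
    have := hZ _ (comb hp hq (a := (1 + θ) / 2) (b := (1 - θ) / 2) (by linarith)) _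
      (comb hp hq (a := -((1 - θ) / 2)) (b := -((1 + θ) / 2)) (by
        rw [abs_neg, abs_neg]; linarith)) (by
        rw [e]; simp only [map_add, map_smul, smul_eq_mul]; linarith)
    rw [e] at this
    convert this using 2
    module)
  obtain ⟨j, hj, iso⟩ := g_mom (d := d) hd2
  set φ : E d → ℝ := fun w => ∑ z, ∑ z', u z.1 z.2 * u z'.1 z'.2 * g z z' w with hφ
  have cφ : Continuous φ := by have := @g_cts d; fun_prop
  have h1 : ∫ w in L d, φ w = j := by rw [iso, ← ip_eq, hu, one_mul]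
  have φ1 : ∀ w ∈ L d, φ w + d / 25 * ip u w ^ 2 ≤ 1 := fun w hw => by
    simp only [hφ, phi_eq]; linarith [F_le hu hw]
  have h2 := mul_meas_ge_le_integral_of_nonneg (μ := volume.restrict (L d))
    (f := fun w => 1 - φ w) ((ae_restrict_iff' (L_cpt d).measurableSet).2
      (Filter.Eventually.of_forall fun w hw => by
        have : 0 ≤ d / 25 * ip u w ^ 2 := by positivity
        show 0 ≤ 1 - φ w
        linarith [φ1 w hw])) (ci (by fun_prop)) (29 / 30)
  rw [measureReal_restrict_apply (isClosed_le continuous_const (by fun_prop)).measurableSet,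
    integral_sub (ci continuous_const) (ci cφ), h1, setIntegral_const, smul_eq_mul] at h2
  have f1 := (L_cpt d).measure_lt_top (μ := volume)
  have f2 := (measure_mono (inter_subset_left (t := {x | |ip u x| ≤ 5 / k}))).trans_lt
    (cG.measure_lt_top (μ := volume))
  have h3 : volume.real (L d) ≤ volume.real ({w | 29 / 30 ≤ 1 - φ w} ∩ L d) +
      volume.real (G ∩ {x | |ip u x| ≤ 5 / k}) := by
    refine le_trans (measureReal_mono (fun w hw => ?_) (measure_union_ne_top
      (measure_ne_top_of_subset inter_subset_right f1.ne) f2.ne)) (measureReal_union_le _ _)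
    by_cases h : 29 / 30 ≤ 1 - φ w
    · exact Or.inl ⟨h, hw⟩
    have uL : u ∈ L d := hs_mem hu.le
    have p0 : 0 ≤ d / 25 * ip u w ^ 2 := by positivity
    refine Or.inr ⟨⟨(_, _), ⟨⟨mac hw uL, mac hw (u := -u) (by
      simpa using comb uL uL (a := -1) (b := 0) (by simp))⟩, ?_⟩, ?_⟩, ?_⟩
    · have e : of.symm (A w * of (-u) * A (tp d w)) = -of.symm (A w * of u * A (tp d w)) := by
        rw [show of (-u) = -of u from rfl, mul_neg, neg_mul]; rfl
      simp only [hφ, phi_eq] at h
      simp only [mem_ofPred_eq, e, map_add, map_smul, map_neg, smul_eq_mul]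
      linarith
    · have e : of.symm (A w * of (-u) * A (tp d w)) = -of.symm (A w * of u * A (tp d w)) := by
        rw [show of (-u) = -of u from rfl, mul_neg, neg_mul]; rfl
      simp only [e]; module
    · show |ip u w| ≤ 5 / k
      rw [le_div_iff₀ (by linarith), ← abs_of_pos (show (0 : ℝ) < k by linarith), ← abs_mul]
      have := φ1 w hw
      rw [dk] at this
      exact abs_le_of_sq_le_sq' (by nlinarith) (by norm_num) |> abs_le.2
  have h4 : volume (L d) ≤ 30 * volume (G ∩ {x | |ip u x| ≤ 5 / k}) := by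
    rw [← ENNReal.toReal_le_toReal f1.ne (ENNReal.mul_ne_top ENNReal.ofNat_ne_top f2.ne),
      ENNReal.toReal_mul, ENNReal.toReal_ofNat]
    have : 0 ≤ volume.real (L d) := measureReal_nonneg
    simp only [Measure.real] at h2 h3 hj this
    linarith
  calc _ ≤ ENNReal.ofReal (k / 9000) * (30 * volume (G ∩ {x | |ip u x| ≤ 5 / k})) := by gcongr
    _ = ENNReal.ofReal (k / 5) * (ENNReal.ofReal (1 / 60) *
        volume (G ∩ {x | |ip u x| ≤ 5 / k})) := by
      rw [← mul_assoc, ← mul_assoc, ← ENNReal.ofReal_ofNat, ← ENNReal.ofReal_mul (by positivity),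
        ← ENNReal.ofReal_mul (by positivity)]
      congr 2; ring
    _ ≤ ENNReal.ofReal (k / 5) * (ENNReal.ofReal (5 / k) * volume Z) := by gcongr
    _ = _ := by
      rw [← mul_assoc, ← ENNReal.ofReal_mul (by positivity),
        show (k / 5 * (5 / k) : ℝ) = 1 by field_simp]
      simp

end

open MeasureTheory Set in
lemma steiner {E : Type} [NormedAddCommGroup E] [InnerProductSpace ℝ E] {K : Set E}
    (hK : ∀ x ∈ K, -x ∈ K) {u p q : E} (hp : ∀ x ∈ K, inner ℝ x p ≤ 1)
    (hq : ∀ x ∈ K, inner ℝ x q ≤ 1) (h : inner ℝ u p = inner ℝ u q) {x : E}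
    (h1 : ∃ s : ℝ, x + s • u ∈ K)
    (h2 : ENNReal.ofReal (2 * |inner ℝ x u|) ≤ volume {s : ℝ | x + s • u ∈ K}) :
    inner ℝ x ((1 / 2 : ℝ) • (p - q) + (inner ℝ u p) • u) ≤ 1 := by
  set t := inner ℝ x u with ht
  set s := inner ℝ u p with hs
  set D := 2 - (inner ℝ x p - inner ℝ x q) with hD
  have key : ∀ a b : ℝ, x + a • u ∈ K → x + b • u ∈ K → s * (a - b) ≤ D :=
    fun a b ha hb => by
      have e1 := hp _ ha
      have e2 := hq _ (hK _ hb)
      simp only [inner_neg_left, inner_add_left, real_inner_smul_left, ← h, ← hs] at e1 e2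
      linarith
  obtain ⟨a, ha⟩ := h1
  have D0 : 0 ≤ D := by simpa using key a a ha ha
  rw [inner_add_right, real_inner_smul_right, real_inner_smul_right, inner_sub_right, ← ht]
  rcases eq_or_ne s 0 with h0 | h0
  · rw [h0]; linarith
  have s0 := abs_pos.2 h0
  have h3 := (h2.trans (Real.volume_le_diam _)).trans
    (Metric.ediam_le_of_forall_dist_le (C := D / |s|) fun a ha b hb => by
      rw [Real.dist_eq, le_div_iff₀ s0, ← abs_mul, abs_le]
      constructor <;> linarith [key a b ha hb, key b a hb ha])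
  rw [ENNReal.ofReal_le_ofReal_iff (by positivity), le_div_iff₀ s0, mul_assoc, ← abs_mul] at h3
  linarith [le_abs_self (t * s)]

/-- Flattening of a square array. -/
def psi (d : ℕ) : Pool.Agent.H20.St.E d ≃ₗ[ℝ] EuclideanSpace ℝ (Fin (d * d)) where
  toFun w := WithLp.toLp 2 fun k => w (finProdFinEquiv.symm k).1 (finProdFinEquiv.symm k).2
  invFun x i j := x (finProdFinEquiv (i, j))
  map_add' _ _ := rfl
  map_smul' _ _ := rfl
  left_inv w := by ext i j; simp only [Equiv.symm_apply_apply]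
  right_inv x := by ext k; simp only [Prod.mk.eta, Equiv.apply_symm_apply]

lemma psi_inner {d : ℕ} (a b : Pool.Agent.H20.St.E d) : inner ℝ (psi d a) (psi d b) = Pool.Agent.H20.St.ip a b := by
  rw [Pool.Agent.H20.St.ip_eq, ← Equiv.sum_comp finProdFinEquiv.symm, PiLp.inner_apply]
  exact Finset.sum_congr rfl fun k _ => mul_comm _ _

open MeasureTheory Set Matrix Pool.Agent.H20.St in
/-- In every dimension `d ^ 2` there is a symmetric convex body all of whose Steiner symmetrals have
a polar body of volume at least `√d / 9000` times that of the polar of the body. -/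
theorem quant (d : ℕ) (hd2 : 2 ≤ d) : ∃ K : Set (EuclideanSpace ℝ (Fin (d * d))),
      IsCompact K ∧ Convex ℝ K ∧ (interior K).Nonempty ∧ (∀ x ∈ K, -x ∈ K) ∧
      ∀ u : EuclideanSpace ℝ (Fin (d * d)), ‖u‖ = 1 →
        ENNReal.ofReal (Real.sqrt d / 9000) *
          volume {y : EuclideanSpace ℝ (Fin (d * d)) | ∀ x ∈ K, inner ℝ x y ≤ (1 : ℝ)} ≤
        volume
          {y : EuclideanSpace ℝ (Fin (d * d)) |
            ∀ x ∈ {z : EuclideanSpace ℝ (Fin (d * d)) |
                (∃ s : ℝ, z + s • u ∈ K) ∧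
                ENNReal.ofReal (2 * |inner ℝ z u|) ≤ volume {s : ℝ | z + s • u ∈ K}},
              inner ℝ x y ≤ (1 : ℝ)} := by
  have d0 : 0 < d := by omega
  have k0 : (0 : ℝ) < Real.sqrt d := Real.sqrt_pos.2 (by exact_mod_cast d0)
  have dk : (d : ℝ) = Real.sqrt d ^ 2 := (Real.sq_sqrt (Nat.cast_nonneg d)).symm
  have cψ := (psi d).toLinearMap.continuous_of_finiteDimensional
  set K : Set (EuclideanSpace ℝ (Fin (d * d))) := {x | ∀ w ∈ L d, inner ℝ x (psi d w) ≤ 1} with hK
  have neg : ∀ w ∈ L d, -w ∈ L d := fun w hw => by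
    simpa using comb hw hw (a := -1) (b := 0) (by simp)
  have Kn : ∀ x ∈ K, -x ∈ K := fun x hx w hw => by
    simpa using hx _ (neg w hw)
  have hs : ∀ x : EuclideanSpace ℝ (Fin (d * d)), ‖x‖ ≤ 1 → (psi d).symm x ∈ L d := fun x hx =>
    hs_mem (by
      rw [← ip_eq, ← psi_inner, LinearEquiv.apply_symm_apply, real_inner_self_eq_norm_sq]
      exact pow_le_one₀ (norm_nonneg _) hx)
  have cK : IsCompact K := (isCompact_closedBall 0 1).of_isClosed_subset (by
      rw [hK, ofPred_forall]
      refine isClosed_iInter fun w => ?_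
      rw [ofPred_forall]
      exact isClosed_iInter fun _ => isClosed_le (by fun_prop) continuous_const) fun x hx => by
    rw [mem_closedBall_zero_iff]
    by_contra h
    have h0 : 0 < ‖x‖ := by linarith [not_le.1 h]
    have := hx _ (hs (‖x‖⁻¹ • x) (by simp [norm_smul, h0.ne']))
    rw [LinearEquiv.apply_symm_apply, real_inner_smul_right, real_inner_self_eq_norm_sq, sq,
      inv_mul_cancel_left₀ h0.ne'] at this
    exact h this
  obtain ⟨r, r0, hr⟩ := ((L_cpt d).image cψ).isBounded.exists_pos_norm_le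
  have hi : (0 : EuclideanSpace ℝ (Fin (d * d))) ∈ interior K :=
    mem_interior_iff_mem_nhds.2 (Filter.mem_of_superset (Metric.closedBall_mem_nhds _
      (inv_pos.2 r0)) fun x hx w hw => (real_inner_le_norm _ _).trans ((mul_le_mul
        (mem_closedBall_zero_iff.1 hx) (hr _ ⟨w, hw, rfl⟩) (norm_nonneg _)
        (inv_pos.2 r0).le).trans_eq (inv_mul_cancel₀ r0.ne')))
  refine ⟨K, cK, (fun x hx y hy a b ha hb hab w hw => by
    rw [inner_add_left, real_inner_smul_left, real_inner_smul_left]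
    nlinarith [hx w hw, hy w hw]), ⟨0, hi⟩, Kn, fun u u1 => ?_⟩
  obtain ⟨u, rfl⟩ := (psi d).surjective u
  obtain ⟨a, ha⟩ := haar_tr (psi d) volume volume
  have pol : psi d ⁻¹' {y | ∀ x ∈ K, inner ℝ x y ≤ (1 : ℝ)} = L d := by
    refine Subset.antisymm (fun w hw x y => ?_) fun w hw x hx => hx w hw
    have e : ∀ (c : ℝ) (w : E d), ip (fun i j => c * (x i * y j)) w = c * (x ⬝ᵥ of w *ᵥ y) :=
      fun c w => by
        simp only [ip_eq, Fintype.sum_prod_type, dotProduct, mulVec, of_apply, Finset.mul_sum]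
        exact Finset.sum_congr rfl fun i _ => Finset.sum_congr rfl fun j _ => by ring
    rcases (add_nonneg (dsq x) (dsq y)).eq_or_lt with h0 | h0
    · have : x ⬝ᵥ x = 0 := by linarith [dsq x, dsq y]
      rw [dotProduct_self_eq_zero.1 this]; simpa using dsq y
    have := hw (psi d fun i j => 2 / (x ⬝ᵥ x + y ⬝ᵥ y) * (x i * y j)) fun v hv => by
      rw [psi_inner, e, div_mul_eq_mul_div, div_le_one h0]; exact hv x y
    rwa [psi_inner, e, div_mul_eq_mul_div, div_le_one h0] at this
  rw [ha, ha, pol, mul_left_comm]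
  refine mul_le_mul_right (main hd2 k0 dk (u := u) ?_ fun p hp q hq hpq => ?_) _
  · rw [← psi_inner, real_inner_self_eq_norm_sq, u1, one_pow]
  · intro x hx
    have := steiner Kn (fun x hx => hx p hp) (fun x hx => hx q hq)
      (by rw [psi_inner, psi_inner, hpq]) hx.1 hx.2
    rwa [psi_inner, ← map_sub, ← map_smul, ← map_smul, ← map_add] at this

end Pool.Agent.KS6_36.St
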